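import Pool.Agent.AEC.StmtsC

/-!
# Squad AFX (problem MP_23d7af_lc): companions

Addition to `SmallSetAmalgamation` (theorem W2, `APsmall l χ` for `l = l ^ χ` in the spectrum).

* FRE: if `M` has size `≤ χ` and all extensions `B j` of `M` (sizes `≤ l`) are compatible over `M`
  with ONE extension `N` of `M` of size `≥ l`, then they are jointly compatible over `M`.
* FAM: for every `κ` there is `μ` such that every AEC `K` with `LS(K) ≤ κ` which is categorical in
  one `l = l ^ μ` and has companions (for instance: it has a proper extension operation `T`) has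
  amalgamation over every `M` with `|M| ≥ κ`, for all families of extensions of all sizes.

Every row: file `Pool/Agent/HelperNN_AFX/XXX.lean`, import `Pool.Agent.AFX.Stmts`, namespace
`Pool.Agent.AFX.HNN`, theorem `xxx.{u} (hypotheses = rows in uses, in this order) : XxxStmt.{u}`.
-/

open FirstOrder FirstOrder.Language Cardinal Set

universe u

namespace Pool.Agent.AFX

open Pool.Agent.AEC

variable {L : FirstOrder.Language.{u, u}} {κ : Cardinal.{u}}

/-- The family `f j : M → B j` of extensions of `M` can be amalgamated over `M`. -/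
def Joint {K : AEC L κ} {M : K.Mod} {ι : Type u} {B : ι → K.Mod} (f : ∀ j, K.Hom M (B j)) :
    Prop :=
  ∃ (Z : K.Mod) (w : ∀ j, K.Hom (B j) Z), ∀ i j x, w i (f i x) = w j (f j x)

/-- The extensions `e : M → N` and `f : M → C` are compatible: they can be amalgamated over `M`. -/
def Cpt {K : AEC L κ} {M N C : K.Mod} (e : K.Hom M N) (f : K.Hom M C) : Prop :=
  ∃ (Z : K.Mod) (g : K.Hom N Z) (h : K.Hom C Z), ∀ x, g (e x) = h (f x)

/-- `K` has companions: for every family of extensions of a member `M` with `|M| ≥ κ` there are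
arbitrarily large extensions of `M` which are compatible over `M` with each of them. -/
def Comp (K : AEC L κ) : Prop :=
  ∀ (θ : Cardinal.{u}) (M : K.Mod) (ι : Type u) (B : ι → K.Mod) (f : ∀ j, K.Hom M (B j)),
    κ ≤ #M.α → ∃ (N : K.Mod) (e : K.Hom M N), θ ≤ #N.α ∧ ∀ j, Cpt e (f j)

/-- `K` has a proper extension operation: a proper extension `i A : A → T A` of every member `A`
with `|A| ≥ κ` (an extension for the others) such that every `K`-embedding `f : A → B` extends to a
`K`-embedding `T A → T B`. -/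
def HasOp (K : AEC L κ) : Prop :=
  ∃ (T : K.Mod → K.Mod) (i : ∀ A, K.Hom A (T A)),
    (∀ A, κ ≤ #A.α → ¬ Function.Surjective (i A)) ∧
    ∀ (A B : K.Mod) (f : K.Hom A B), ∃ g : K.Hom (T A) (T B), ∀ x, g (i A x) = i B (f x)

/-- **FRE** (medium; uses AEC.W2G).  One companion is enough.
PROOF.  `χ < 2 ^ χ ≤ l ^ χ = l`, so `κ ≤ χ < l`.  Take `X ⊆ N` with `#X = l` and by `K.ls` a strong
`S` in `N` with `X ∪ range e ⊆ S`, `#S ≤ l + χ + κ = l`; so `#S = l`, `N' = sub N S`, and `e` factors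
through `e' : M → N'` (`Hom.exists_factor`).  For every `j` let `g : N → Z`, `h : B j → Z` with
`g ∘ e = h ∘ f j`; take a strong `S_j` in `Z` with `g(N') ∪ h(B j) ⊆ S_j`, `#S_j ≤ l + l + κ = l`
(and `≥ l`, `g` is injective): `C j = sub Z S_j` with `g' j : N' → C j`, `h' j : B j → C j` and
`g' j ∘ e' = h' j ∘ f j`.  W2G (`APsmall l χ`) for `N'`, `A = range e'` (`#A ≤ χ`) and the extensions
`g' j`: `w j : C j → Z'` which agree on `A`.  The maps `w j ∘ h' j` amalgamate the `B j` over `M`. -/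
def FreStmt : Prop := ∀ (L : FirstOrder.Language.{u, u}) (κ : Cardinal.{u}) (K : AEC L κ)
  (l χ : Cardinal.{u}), κ ≤ χ → ℵ₀ ≤ l → l ^ χ = l → K.Cat l →
  ∀ (M N : K.Mod) (e : K.Hom M N), #M.α ≤ χ → l ≤ #N.α →
  ∀ (ι : Type u) (B : ι → K.Mod) (f : ∀ j, K.Hom M (B j)), (∀ j, #(B j).α ≤ l) →
    (∀ j, Cpt e (f j)) → Joint f

/-- **LN2** (easy-medium; uses nothing).  Change of vocabulary, with the maps.
PROOF.  Edit of `Pool/Agent/Helper84_AEC/LNG.lean` (import it): `t : Tr L (codeLang F R)`,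
`K0 = renK t K`, `Φ = ofM t K`, `v A` the identity.  `(ofM t K A).α = A.α` by definition and the
`L`-structure obtained from the `L0`-structure `back t A.α` is the given one (`ren_back`), so
`K0`-embeddings `Φ A → Φ B` are the `K`-embeddings `A → B` (as functions; an `L`-embedding is an
embedding for the renamed structures and conversely, as in `renQ`, `backQ`).  Every `A0 : K0.Mod` is
isomorphic to `Φ (toM t K A0)` by the identity. -/
def Ln2Stmt : Prop := ∀ (L : FirstOrder.Language.{u, u}) (κ : Cardinal.{u}) (K : AEC L κ),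
  ∃ (F R : ℕ → Set κ.out) (K0 : AEC (codeLang F R) κ) (Φ : K.Mod → K0.Mod)
    (v : ∀ A : K.Mod, A.α ≃ (Φ A).α),
    (∀ (A B : K.Mod) (f : K.Hom A B), ∃ g : K0.Hom (Φ A) (Φ B), ∀ x, g (v A x) = v B (f x)) ∧
    (∀ (A B : K.Mod) (g : K0.Hom (Φ A) (Φ B)), ∃ f : K.Hom A B, ∀ x, g (v A x) = v B (f x)) ∧
    ∀ A0 : K0.Mod, ∃ (A : K.Mod) (f : K0.Hom A0 (Φ A)), Function.Surjective f

/-- A family of extensions of sizes `≤ θ` of a member `M` with `|M| ≥ κ` which cannot be
amalgamated over `M`. -/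
def Bad (K : AEC L κ) (θ : Cardinal.{u}) : Prop :=
  ∃ (M : K.Mod) (ι : Type u) (B : ι → K.Mod) (f : ∀ j, K.Hom M (B j)),
    κ ≤ #M.α ∧ (∀ j, #(B j).α ≤ θ) ∧ ¬ Joint f

/-- **TRB** (easy-medium; uses nothing).  `Bad` does not depend on the vocabulary.
PROOF.  (→) `M, B, f` give `Φ M`, `Φ (B j)`, `g j` over `f j`.  If `w0 j : Φ (B j) → Z0` amalgamate
the `g j`, take `p : Z0 → Φ Z` (onto), and `w j : B j → Z` over `p ∘ w0 j`:
`v (w i (f i x)) = p (w0 i (g i (v x)))` does not depend on `i`, so `Joint f`.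
(←) `M0, B0, f0`: take `p : M0 → Φ M`, `q j : B0 j → Φ (B j)` onto; `p` has an inverse
`p' : Φ M → M0` (`Hom.exists_factor` for the identity of `Φ M`), `f j : M → B j` over
`q j ∘ f0 j ∘ p'`.  If `w j : B j → Z` amalgamate the `f j` let `g j : Φ (B j) → Φ Z` be over `w j`;
the maps `g j ∘ q j` amalgamate the `f0 j`.  Cardinalities: `v`, and the surjective (injective)
maps `p`, `q j`. -/
def TrbStmt : Prop := ∀ (L L0 : FirstOrder.Language.{u, u}) (κ : Cardinal.{u}) (K : AEC L κ)
  (K0 : AEC L0 κ) (Φ : K.Mod → K0.Mod) (v : ∀ A : K.Mod, A.α ≃ (Φ A).α),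
  (∀ (A B : K.Mod) (f : K.Hom A B), ∃ g : K0.Hom (Φ A) (Φ B), ∀ x, g (v A x) = v B (f x)) →
  (∀ (A B : K.Mod) (g : K0.Hom (Φ A) (Φ B)), ∃ f : K.Hom A B, ∀ x, g (v A x) = v B (f x)) →
  (∀ A0 : K0.Mod, ∃ (A : K.Mod) (f : K0.Hom A0 (Φ A)), Function.Surjective f) →
  ∀ θ : Cardinal.{u}, Bad K θ ↔ Bad K0 θ

/-- **HN3** (medium; uses AEC.SML LN2 TRB).  Hanf number of failures.
PROOF.  As `Pool/Agent/Helper41_AEC/HNF.lean`.  `T = Σ F R, AEC (codeLang F R) κ` is small (SML).
For `K0` in `T` let `b(K0)` be some `θ` with `Bad K0 θ` if there is one, else `0`; `μ` larger than all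
`b(K0)`.  If `Bad K θ`, take `K0` by LN2; `Bad K0 θ` by TRB, so `Bad K0 (b(K0))`, `b(K0) ≤ μ`, and
`Bad K (b(K0))` by TRB. -/
def Hn3Stmt : Prop := ∀ κ : Cardinal.{u}, ∃ μ : Cardinal.{u},
  ∀ (L : FirstOrder.Language.{u, u}) (K : AEC L κ), (∃ θ, Bad K θ) → ∃ θ ≤ μ, Bad K θ

/-- **TOW** (medium-strong; uses AEC.DLM AEC.DLU).  A proper extension operation gives companions.
PROOF.  Edit of `Pool/Agent/Helper41_AEC/TRC.lean`.  Fix `θ` (infinite, otherwise enlarge it), `M`,
`B`, `f`.  Category: objects `(A, e : M → A, (C j), g j : A → C j, c j : B j → C j)` with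
`g j (e x) = c j (f j x)`; morphisms `a : A → A'`, `b j : C j → C' j` with `a ∘ e = e'`,
`b j ∘ c j = c' j`, `b j ∘ g j = g' j ∘ a`.  It has colimits of the shape of every nonempty linear
order: DLM for `A` and for every `C j`, the maps `g j` of the limits by DLU, the universal property by
DLU.  Choose (`choose`) a `g = T f` for every `f`.  Successor structure: `X₀ = (M, id, B, f, id)`,
`succ (A, e, C, g, c) = (T A, i A ∘ e, T (C j), T (g j), i (C j) ∘ c j)`, `toSucc = (i A, i (C j))`.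
Iterate over `J = θ.ord.ToType` and take the colimit `(N, e, Z, g, c)` of the whole functor:
`g j (e x) = c j (f j x)`, so `Cpt e (f j)`.  `θ ≤ #N`: all `A` of the chain have `#A ≥ #M ≥ κ`, so no
step is surjective; as in the proof of SIZ (`Pool/Agent/Helper17_AEC/SIZ.lean`) choose for every
`j : J` an element of `F (succ j)` outside of the range of `F j`; their images in `N` are different. -/
def TowStmt : Prop := ∀ (L : FirstOrder.Language.{u, u}) (κ : Cardinal.{u}) (K : AEC L κ),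
  HasOp K → Comp K

/-- **FAM** (easy-medium; uses FRE HN3).  The family.
PROOF.  `μ = max μ₀ κ`, `μ₀` from HN3.  `l ^ μ = l`, `l ≥ ℵ₀` give `μ < 2 ^ μ ≤ l`.  Let `M`, `B`, `f` with
`κ ≤ #M` and not `Joint f`.  With `θ' = sup #(B j)` (`Cardinal.le_ciSup` of a small family,
`Cardinal.bddAbove_range`) `Bad K θ'`, so there is `θ ≤ μ₀` with `Bad K θ`: `M'`, `B'`, `f'`, not
`Joint f'`.  The index type of `B'` is not empty (otherwise `Z = M'` works), so `#M' ≤ #(B' j) ≤ θ ≤
μ`.  `Comp K` gives `e : M' → N`, `l ≤ #N`, `Cpt e (f' j)` for all `j`; FRE with `χ = μ` gives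
`Joint f'`: contradiction. -/
def FamStmt : Prop := ∀ κ : Cardinal.{u}, ∃ μ : Cardinal.{u},
  ∀ (L : FirstOrder.Language.{u, u}) (K : AEC L κ),
    (∃ l, ℵ₀ ≤ l ∧ l ^ μ = l ∧ K.Cat l) → Comp K →
    ∀ (M : K.Mod) (ι : Type u) (B : ι → K.Mod) (f : ∀ j, K.Hom M (B j)), κ ≤ #M.α → Joint f

end Pool.Agent.AFX
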