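import Pool.Agent.AFX.Stmts

/-!
# Squad AFX, second part: the final statement

`U`: `K` categorical in `l = l ^ χ`; `M` a member all of whose extensions of size `< l` have a proper
free extension; then every family of extensions of `M` of sizes `≤ l` can be amalgamated over every
subset of `M` of size `≤ χ`.  (For `#M = l` this is `SmallSetAmalgamation`: the hypothesis is void.)
-/

open FirstOrder FirstOrder.Language Cardinal Set

universe u

namespace Pool.Agent.AFX

open Pool.Agent.AEC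

variable {L : FirstOrder.Language.{u, u}} {κ : Cardinal.{u}}

/-- The extension `e : M → N` is free over `M`: it can be amalgamated over `M` with every extension
of `M`. -/
def Free {K : AEC L κ} {M N : K.Mod} (e : K.Hom M N) : Prop :=
  ∀ (P : K.Mod) (g : K.Hom M P), Cpt e g

/-- **FRS** (medium; uses AEC.W2G).  FRE over a subset: proof of FRE, with `N' ⊇ X ∪ range e`
(`#M ≤ #(B j) ≤ l` if there is an index `j`; otherwise nothing to prove) and W2G for `N'` and the
set `e' '' A`. -/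
def FrsStmt : Prop := ∀ (L : FirstOrder.Language.{u, u}) (κ : Cardinal.{u}) (K : AEC L κ)
  (l χ : Cardinal.{u}), κ ≤ χ → ℵ₀ ≤ l → l ^ χ = l → K.Cat l →
  ∀ (M N : K.Mod) (e : K.Hom M N), l ≤ #N.α → ∀ A : Set M.α, #A ≤ χ →
  ∀ (ι : Type u) (B : ι → K.Mod) (f : ∀ j, K.Hom M (B j)), (∀ j, #(B j).α ≤ l) →
    (∀ j, Cpt e (f j)) →
    ∃ (Z : K.Mod) (w : ∀ j, K.Hom (B j) Z), ∀ i j, ∀ x ∈ A, w i (f i x) = w j (f j x)

/-- **TO3** (medium-strong; uses AEC.DLM AEC.DLU).  TOW for chosen free extensions, local form.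
PROOF.  As TOW.  For every `A` with `Nonempty (K.Hom M A)` and `#A < θ` choose `T A`, `i A : A → T A`
as in the hypothesis and for every `f : A → B` an amalgam `U f`, `a f : T A → U f`, `b f : B → U f`,
`a f ∘ i A = b f ∘ f`; for the other `A` take `T A = A`, `i A = id`, `U f = B`, `a f = f`, `b f = id`.
Successor structure: `succ (A, e, C, g, c) = (T A, i A ∘ e, U (g j), a (g j), b (g j) ∘ c j)`,
`toSucc = (i A, b (g j))`.  Iterate over `J = θ.ord.ToType`, take the colimit `N`.  If `#N < θ` then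
all `A` of the chain have size `< θ`, so all steps are proper and `θ = #J ≤ #N`: contradiction. -/
def To3Stmt : Prop := ∀ (L : FirstOrder.Language.{u, u}) (κ : Cardinal.{u}) (K : AEC L κ)
  (M : K.Mod) (θ : Cardinal.{u}), ℵ₀ ≤ θ →
  (∀ A : K.Mod, K.Hom M A → #A.α < θ →
    ∃ (T : K.Mod) (i : K.Hom A T), ¬ Function.Surjective i ∧ Free i) →
  ∀ (ι : Type u) (B : ι → K.Mod) (f : ∀ j, K.Hom M (B j)),
    ∃ (N : K.Mod) (e : K.Hom M N), θ ≤ #N.α ∧ ∀ j, Cpt e (f j)

/-- The final statement. -/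
def UniStmt : Prop := ∀ (L : FirstOrder.Language.{u, u}) (κ : Cardinal.{u}) (K : AEC L κ)
  (l χ : Cardinal.{u}), κ ≤ χ → ℵ₀ ≤ l → l ^ χ = l → K.Cat l →
  ∀ M : K.Mod, (∀ A : K.Mod, K.Hom M A → #A.α < l →
    ∃ (T : K.Mod) (i : K.Hom A T), ¬ Function.Surjective i ∧ Free i) →
  ∀ A : Set M.α, #A ≤ χ → ∀ (ι : Type u) (B : ι → K.Mod) (f : ∀ i, K.Hom M (B i)),
    (∀ i, #(B i).α ≤ l) →
    ∃ (Z : K.Mod) (w : ∀ i, K.Hom (B i) Z), ∀ i j, ∀ x ∈ A, w i (f i x) = w j (f j x)

theorem uni (hf : FrsStmt.{u}) (ht : To3Stmt.{u}) : UniStmt.{u} := by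
  intro L κ K l χ h1 h2 h3 h4 M hM A hA ι B f hB
  obtain ⟨N, e, hN, hc⟩ := ht L κ K M l h2 hM ι B f
  exact hf L κ K l χ h1 h2 h3 h4 M N e hN A hA ι B f hB hc

end Pool.Agent.AFX
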